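import Pool.Agent.helper75.PSA.Spec

set_option autoImplicit false

open Polynomial Finset

noncomputable section

namespace Pool.Agent.PSA

/-- the coefficients of `(X - Λ)(X - Λ⁻¹) Q` -/
theorem COE_coeff (Λ : ℝ) (hΛ : Λ ≠ 0) (Q : ℝ[X]) :
    ((X - C Λ) * (X - C Λ⁻¹) * Q).coeff 1 = Q.coeff 1 - (Λ + Λ⁻¹) * Q.coeff 0 ∧
    ∀ i : ℕ, ((X - C Λ) * (X - C Λ⁻¹) * Q).coeff (i + 2) =
      Q.coeff i - (Λ + Λ⁻¹) * Q.coeff (i + 1) + Q.coeff (i + 2) := by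
  have h : (X - C Λ) * (X - C Λ⁻¹) * Q = X * (X * Q) - C (Λ + Λ⁻¹) * (X * Q) + Q := by
    have h1 : C Λ * C Λ⁻¹ = (1 : ℝ[X]) := by rw [← C_mul, mul_inv_cancel₀ hΛ, C_1]
    rw [C_add]
    linear_combination Q * h1
  rw [h]
  constructor
  · rw [coeff_add, coeff_sub, coeff_C_mul, coeff_X_mul, coeff_X_mul]
    have : (X * Q).coeff 0 = 0 := by simp
    rw [this]
    ring
  · intro i
    rw [coeff_add, coeff_sub, coeff_C_mul, coeff_X_mul, coeff_X_mul, coeff_X_mul]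

theorem COE_R {k : ℕ} {R : ℕ → ℤ} (h : ∑ i ∈ range (2 * k + 3), |R i| ≤ 4 ^ (k + 1) + 2) (i : ℕ)
    (hi : i < 2 * k + 3) : |(R i : ℝ)| ≤ 4 ^ (k + 1) + 2 := by
  have h1 : |R i| ≤ ∑ i ∈ range (2 * k + 3), |R i| :=
    Finset.single_le_sum (f := fun i => |R i|) (fun _ _ => abs_nonneg _) (mem_range.2 hi)
  have h2 : |R i| ≤ 4 ^ (k + 1) + 2 := h1.trans h
  have h3 : ((|R i| : ℤ) : ℝ) ≤ ((4 ^ (k + 1) + 2 : ℤ) : ℝ) := by exact_mod_cast h2
  push_cast at h3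
  exact h3

theorem COE (hQQB : QQB_stmt) (hPVC : PVC_stmt) : COE_stmt := by
  intro k hk
  refine ⟨8 * 4 ^ k, fun n hn v hv Λ w hΛ hF => ?_⟩
  obtain ⟨R, hRs, hsym, hR0, hR⟩ := hPVC k
  obtain ⟨hmon, hdeg, hcf, hc0⟩ := hR v
  obtain ⟨hQm, hQd, hQ0, hQs, hQb⟩ := hQQB k w
  have hΛ0 : (0 : ℝ) < Λ := by linarith
  have hinv : 0 < Λ⁻¹ := inv_pos.2 hΛ0
  have hinv1 : Λ⁻¹ < 1 := inv_lt_one_of_one_lt₀ hΛ
  set L := Λ + Λ⁻¹ with hL
  set q := fun i => (QQ w).coeff i with hq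
  obtain ⟨hk1, hk2⟩ := COE_coeff Λ hΛ0.ne' (QQ w)
  unfold Fac at hF
  rw [← hF, ← hL] at hk1
  simp only [← hF, ← hL] at hk2
  have h4k : (4 : ℝ) ≤ 4 ^ k := by
    calc (4 : ℝ) = 4 ^ 1 := by norm_num
      _ ≤ 4 ^ k := pow_le_pow_right₀ (by norm_num) hk
  have hnR : (8 : ℝ) * 4 ^ k ≤ n := by exact_mod_cast hn
  have hkR : (1 : ℝ) ≤ k := by exact_mod_cast hk
  have hn0 : (0 : ℝ) < n := by linarith
  have hkn : (n : ℝ) ≤ k * n := le_mul_of_one_le_left hn0.le hkR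
  obtain ⟨hv0, hv0', hvj⟩ := hv
  have hv0R : (8 * k * n : ℝ) ≤ v 0 := by exact_mod_cast hv0
  have hv0R' : (v 0 : ℝ) ≤ 12 * k * n := by exact_mod_cast hv0'
  -- the first coefficient
  have hA : |L - 4 * v 0| ≤ n := by
    have e1 := hcf 1 le_rfl (by omega)
    have e2 : min (1 - 1) (2 * k + 1 - 1) = 0 := by omega
    rw [e2] at e1
    rw [Polynomial.coeff_map, e1, hQ0, mul_one] at hk1
    have e3 : L - 4 * v 0 = (QQ w).coeff 1 - R 1 := by
      simp only [eq_intCast] at hk1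
      push_cast at hk1
      linarith
    rw [e3]
    have e4 := COE_R hRs 1 (by omega)
    have e5 := hQb 1
    calc |(QQ w).coeff 1 - R 1| ≤ |(QQ w).coeff 1| + |(R 1 : ℝ)| := abs_sub _ _
      _ ≤ 4 ^ k + (4 ^ (k + 1) + 2) := add_le_add e5 e4
      _ ≤ n := by rw [pow_succ]; linarith
  have hL31 : 31 * k * n ≤ L := by
    have := (abs_le.1 hA).1
    nlinarith
  have hL49 : L ≤ 49 * k * n := by
    have := (abs_le.1 hA).2
    nlinarith
  have hL0 : 0 < L := by positivity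
  constructor
  · have : Λ ≤ L := by linarith
    nlinarith
  · intro i hi hi2
    obtain ⟨j, rfl⟩ : ∃ j, i = j + 1 := ⟨i - 1, by omega⟩
    have e1 := hcf (j + 2) (by omega) (by omega)
    obtain ⟨m, hm⟩ : ∃ m, m = min (j + 2 - 1) (2 * k + 1 - (j + 2)) := ⟨_, rfl⟩
    rw [← hm] at e1
    have e2 := hk2 j
    rw [Polynomial.coeff_map, e1] at e2
    simp only [eq_intCast] at e2
    push_cast at e2
    have e3 := hvj m (by omega) (by omega)
    have e4 : (3 * n : ℝ) ≤ v m := by exact_mod_cast e3.1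
    have e5 : (v m : ℝ) ≤ 4 * n := by exact_mod_cast e3.2
    have e6 := COE_R hRs (j + 2) (by omega)
    have e7 := hQb j
    have e8 := hQb (j + 2)
    have e9 : |L * (QQ w).coeff (j + 1) - 4 * v m| ≤ n := by
      have : L * (QQ w).coeff (j + 1) - 4 * v m =
          (QQ w).coeff j + (QQ w).coeff (j + 2) - R (j + 2) := by linarith
      rw [this]
      calc |(QQ w).coeff j + (QQ w).coeff (j + 2) - R (j + 2)|
          ≤ |(QQ w).coeff j + (QQ w).coeff (j + 2)| + |(R (j + 2) : ℝ)| := abs_sub _ _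
        _ ≤ (|(QQ w).coeff j| + |(QQ w).coeff (j + 2)|) + |(R (j + 2) : ℝ)| := by
            linarith [abs_add_le ((QQ w).coeff j) ((QQ w).coeff (j + 2))]
        _ ≤ (4 ^ k + 4 ^ k) + (4 ^ (k + 1) + 2) := by linarith
        _ ≤ n := by rw [pow_succ]; linarith
    obtain ⟨e10, e11⟩ := abs_le.1 e9
    have hlow : 11 * (n : ℝ) ≤ L * (QQ w).coeff (j + 1) := by linarith
    have hup : L * (QQ w).coeff (j + 1) ≤ 17 * n := by linarith
    constructor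
    · by_contra hcon
      rw [not_lt] at hcon
      have h1 : L * (QQ w).coeff (j + 1) ≤ L * Λ⁻¹ := mul_le_mul_of_nonneg_left hcon hL0.le
      have h2 : L * Λ⁻¹ = 1 + Λ⁻¹ * Λ⁻¹ := by
        rw [hL, add_mul, mul_inv_cancel₀ hΛ0.ne']
      have h3 : Λ⁻¹ * Λ⁻¹ < 1 := by nlinarith
      linarith
    · by_contra hcon
      rw [not_lt] at hcon
      have h1 : L * 1 ≤ L * (QQ w).coeff (j + 1) := mul_le_mul_of_nonneg_left hcon hL0.le
      nlinarith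

end Pool.Agent.PSA
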