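import Pool.Agent.helper75.PSA.Spec

set_option autoImplicit false

open Polynomial Finset

noncomputable section

namespace Pool.Agent.PSA

theorem IRR_comp (k : ℕ) (v : ℕ → ℤ) : ∃ B : ℤ[X], (PV k v).comp (X + C 1) =
    X ^ (2 * k + 2) + C 2 * (X + C 1) ^ (k + 1) - C 4 * B := by
  refine ⟨(∑ i ∈ Finset.Icc 1 (2 * k + 1), C (v (min (i - 1) (2 * k + 1 - i))) * X ^ i).comp (X + C 1), ?_⟩
  unfold PV
  rw [sub_comp, add_comp, pow_comp, sub_comp, X_comp, one_comp, mul_comp, mul_comp, pow_comp, X_comp]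
  have h2 : (2 : ℤ[X]).comp (X + C 1) = C 2 := by
    rw [← C_ofNat, C_comp]
  have h4 : (4 : ℤ[X]).comp (X + C 1) = C 4 := by
    rw [← C_ofNat, C_comp]
  rw [h2, h4]
  congr 3
  rw [C_1]
  ring

theorem IRR (hPVC : PVC_stmt) : IRR_stmt := by
  intro k v
  obtain ⟨R, -, -, -, hR⟩ := hPVC k
  obtain ⟨hmon, hdeg, -, -⟩ := hR v
  obtain ⟨B, hB⟩ := IRR_comp k v
  set Q := (PV k v).comp (X + C 1) with hQ
  have hXm : (X + C (1 : ℤ)).Monic := monic_X_add_C 1
  have hQm : Q.Monic := by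
    rw [hQ]
    exact hmon.comp_X_add_C 1
  have hQd : Q.natDegree = 2 * k + 2 := by
    rw [hQ, natDegree_comp, natDegree_X_add_C, mul_one, hdeg]
  have hprime : (Ideal.span {(2 : ℤ)}).IsPrime := by
    rw [Ideal.span_singleton_prime (by norm_num)]
    exact Int.prime_two
  have hE : Q.IsEisensteinAt (Ideal.span {(2 : ℤ)}) := by
    refine ⟨?_, ?_, ?_⟩
    · rw [hQm.leadingCoeff]
      exact fun h => hprime.ne_top ((Ideal.eq_top_iff_one _).2 h)
    · intro n hn
      rw [hQd] at hn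
      rw [hB, Ideal.mem_span_singleton, coeff_sub, coeff_add, coeff_X_pow, if_neg hn.ne, coeff_C_mul,
        coeff_C_mul, zero_add]
      exact ⟨((X + C (1 : ℤ)) ^ (k + 1)).coeff n - 2 * B.coeff n, by ring⟩
    · rw [Ideal.span_singleton_pow, Ideal.mem_span_singleton, hB, coeff_sub, coeff_add, coeff_X_pow,
        if_neg (by omega), coeff_C_mul, coeff_C_mul, zero_add]
      have h1 : ((X + C (1 : ℤ)) ^ (k + 1)).coeff 0 = 1 := by
        rw [coeff_zero_eq_eval_zero]
        simp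
      rw [h1]
      rintro ⟨c, hc⟩
      omega
  have hirr : Irreducible Q := hE.irreducible hprime hQm.isPrimitive (by rw [hQd]; omega)
  have h3 : (algEquivAevalXAddC (1 : ℤ)) (PV k v) = Q := by
    rw [hQ]
    simp [algEquivAevalXAddC, comp, aeval_def]
  rw [← MulEquiv.irreducible_iff (algEquivAevalXAddC (1 : ℤ)), h3]
  exact hirr

end Pool.Agent.PSA
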