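import Pool.Agent.helper75.PSA.Spec

set_option autoImplicit false

open Polynomial Finset

noncomputable section

namespace Pool.Agent.PSA

theorem LOC_R {k : ℕ} {R : ℕ → ℤ} (h : ∑ i ∈ range (2 * k + 3), |R i| ≤ 4 ^ (k + 1) + 2)
    (c : ℕ → ℝ) (hc : ∀ i, |c i| ≤ 1) :
    |∑ i ∈ range (2 * k + 3), (R i : ℝ) * c i| ≤ 4 ^ (k + 1) + 2 := by
  calc |∑ i ∈ range (2 * k + 3), (R i : ℝ) * c i| ≤ ∑ i ∈ range (2 * k + 3), |(R i : ℝ) * c i| :=
        Finset.abs_sum_le_sum_abs _ _
    _ ≤ ∑ i ∈ range (2 * k + 3), |(R i : ℝ)| := by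
        refine Finset.sum_le_sum fun i _ => ?_
        rw [abs_mul]
        exact mul_le_of_le_one_right (abs_nonneg _) (hc i)
    _ ≤ 4 ^ (k + 1) + 2 := by
        have h3 : ((∑ i ∈ range (2 * k + 3), |R i| : ℤ) : ℝ) ≤ ((4 ^ (k + 1) + 2 : ℤ) : ℝ) := by
          exact_mod_cast h
        push_cast at h3
        exact h3

/-- lower bound for the main part; `k = m + 1` -/
theorem LOC_V (m : ℕ) (f : ℕ → ℝ) (a b : ℝ) (h0 : f 0 = 0) (h1 : f 1 = a) (h2 : f (2 * m + 3) = a)
    (h3 : f (2 * m + 4) = 0) (hb : ∀ i, i < 2 * m + 1 → -b ≤ f (i + 2)) :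
    2 * a - (2 * m + 1) * b ≤ ∑ i ∈ range (2 * (m + 1) + 3), f i := by
  have e : 2 * (m + 1) + 3 = 2 * m + 1 + 1 + 1 + 1 + 1 := by ring
  rw [e, Finset.sum_range_succ, Finset.sum_range_succ, Finset.sum_range_succ', Finset.sum_range_succ']
  have e1 : 2 * m + 1 + 1 + 1 + 1 = 2 * m + 4 := by ring
  have e2 : 2 * m + 1 + 1 + 1 = 2 * m + 3 := by ring
  rw [e1, e2, h3, h2, h0]
  have e3 : f (0 + 1) = a := by rw [zero_add, h1]
  rw [e3]
  have h4 : ∑ i ∈ range (2 * m + 1), (-b) ≤ ∑ i ∈ range (2 * m + 1), f (i + 1 + 1) := by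
    refine Finset.sum_le_sum fun i hi => ?_
    exact hb i (mem_range.1 hi)
  rw [Finset.sum_const, card_range, nsmul_eq_mul] at h4
  push_cast at h4
  linarith

theorem LOC (hTRG : TRG_stmt) (hPVC : PVC_stmt) : LOC_stmt := by
  intro k hk
  refine ⟨4 ^ (k + 1) + 2, fun n hn v hv => ?_⟩
  obtain ⟨R, hRs, hsym, hR0, hR⟩ := hPVC k
  obtain ⟨hmon, hdeg, hcf, hc0⟩ := hR v
  obtain ⟨hv0, hv0', hvj⟩ := hv
  have htop : (PV k v).coeff (2 * k + 2) = 1 := by
    have := hmon.coeff_natDegree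
    rwa [hdeg] at this
  have hRtop : R (2 * k + 2) = 1 := by
    have := hsym 0 (by omega)
    rw [Nat.sub_zero] at this
    rw [this, hR0]
  -- all coefficients
  set V : ℕ → ℤ := fun i => if 1 ≤ i ∧ i ≤ 2 * k + 1 then v (min (i - 1) (2 * k + 1 - i)) else 0 with hV
  have hall : ∀ i, i ≤ 2 * k + 2 → (PV k v).coeff i = R i - 4 * V i := by
    intro i hi
    rcases Nat.eq_zero_or_pos i with h | h
    · subst h
      rw [hc0, hR0, hV]
      simp
    · by_cases h2 : i ≤ 2 * k + 1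
      · rw [hcf i h h2, hV]
        simp only [if_pos (⟨h, h2⟩ : 1 ≤ i ∧ i ≤ 2 * k + 1)]
      · have h3 : i = 2 * k + 2 := by omega
        rw [h3, htop, hRtop, hV]
        simp
  have hPdeg : ((PV k v).map (Int.castRingHom ℝ)).natDegree = 2 * k + 2 := by
    rw [hmon.natDegree_map, hdeg]
  have hnR : (4 : ℝ) ^ (k + 1) + 2 ≤ n := by exact_mod_cast hn
  have hkR : (1 : ℝ) ≤ k := by exact_mod_cast hk
  have hn0 : (0 : ℝ) < n := by
    have : (0 : ℝ) < 4 ^ (k + 1) := by positivity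
    linarith
  have hv0R : (8 * k * n : ℝ) ≤ v 0 := by exact_mod_cast hv0
  refine hTRG k ((PV k v).map (Int.castRingHom ℝ)) hk (hmon.map _) hPdeg ?_ ?_
  · intro i hi
    rw [coeff_map, coeff_map, hall _ (by omega), hall i hi, hsym i hi]
    have : V (2 * k + 2 - i) = V i := by
      rw [hV]
      simp only
      by_cases h : 1 ≤ i ∧ i ≤ 2 * k + 1
      · rw [if_pos h, if_pos (by omega)]
        congr 1
        omega
      · rw [if_neg h, if_neg (by omega)]
    rw [this]
  · intro j hj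
    obtain ⟨m, rfl⟩ : ∃ m, k = m + 1 := ⟨k - 1, by omega⟩
    set φ : ℝ := Real.pi * j / ((m + 1 : ℕ) : ℝ) with hφ
    set c : ℕ → ℝ := fun i => (-1 : ℝ) ^ j * Real.cos (((i : ℝ) - (((m + 1 : ℕ) : ℝ) + 1)) * φ) with hc
    have hsgn : |(-1 : ℝ) ^ j| = 1 := by rw [abs_pow, abs_neg, abs_one, one_pow]
    have hc1 : ∀ i, |c i| ≤ 1 := by
      intro i
      rw [hc]
      simp only
      rw [abs_mul, hsgn, one_mul]
      exact Real.abs_cos_le_one _
    have hm0 : ((m + 1 : ℕ) : ℝ) ≠ 0 := by positivity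
    have hend : Real.cos (((m + 1 : ℕ) : ℝ) * φ) = (-1) ^ j := by
      rw [hφ]
      have : ((m + 1 : ℕ) : ℝ) * (Real.pi * j / ((m + 1 : ℕ) : ℝ)) = j * Real.pi := by
        field_simp
      rw [this]
      exact Real.cos_nat_mul_pi j
    have hsq : (-1 : ℝ) ^ j * (-1) ^ j = 1 := by
      rw [← mul_pow]
      norm_num
    have hca : c 1 = 1 := by
      rw [hc]
      simp only
      have : ((1 : ℕ) : ℝ) - (((m + 1 : ℕ) : ℝ) + 1) = -((m + 1 : ℕ) : ℝ) := by push_cast; ring
      rw [this, neg_mul, Real.cos_neg, hend, hsq]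
    have hcb : c (2 * m + 3) = 1 := by
      rw [hc]
      simp only
      have : ((2 * m + 3 : ℕ) : ℝ) - (((m + 1 : ℕ) : ℝ) + 1) = ((m + 1 : ℕ) : ℝ) := by push_cast; ring
      rw [this, hend, hsq]
    have hsum : (-1 : ℝ) ^ j * ∑ i ∈ range (2 * (m + 1) + 3),
        ((PV (m + 1) v).map (Int.castRingHom ℝ)).coeff i *
          Real.cos (((i : ℝ) - (((m + 1 : ℕ) : ℝ) + 1)) * φ) =
        ∑ i ∈ range (2 * (m + 1) + 3), (R i : ℝ) * c i -
          4 * ∑ i ∈ range (2 * (m + 1) + 3), (V i : ℝ) * c i := by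
      rw [Finset.mul_sum, Finset.mul_sum, ← Finset.sum_sub_distrib]
      refine Finset.sum_congr rfl fun i hi => ?_
      rw [coeff_map, hall i (by have := mem_range.1 hi; omega)]
      simp only [eq_intCast, hc]
      push_cast
      ring
    have hlow := LOC_V m (fun i => (V i : ℝ) * c i) (v 0) (4 * n) (by simp [hV])
      (by
        have : V 1 = v 0 := by
          rw [hV]
          simp only
          rw [if_pos (by omega)]
          congr 1
        simp only [this, hca, mul_one])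
      (by
        have : V (2 * m + 3) = v 0 := by
          rw [hV]
          simp only
          rw [if_pos (by omega)]
          congr 1
          omega
        simp only [this, hcb, mul_one])
      (by
        have : V (2 * m + 4) = 0 := by
          rw [hV]
          simp only
          rw [if_neg (by omega)]
        simp only [this, Int.cast_zero, zero_mul])
      (by
        intro i hi
        obtain ⟨l, hl⟩ : ∃ l, l = min (i + 2 - 1) (2 * (m + 1) + 1 - (i + 2)) := ⟨_, rfl⟩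
        have h1 : V (i + 2) = v l := by
          rw [hV, hl]
          simp only
          rw [if_pos (by omega)]
        obtain ⟨h2, h3⟩ := hvj l (by omega) (by omega)
        have h4 : (3 * n : ℝ) ≤ v l := by exact_mod_cast h2
        have h5 : (v l : ℝ) ≤ 4 * n := by exact_mod_cast h3
        have h6 := (abs_le.1 (hc1 (i + 2))).1
        simp only [h1]
        nlinarith)
    have hRb := (abs_le.1 (LOC_R hRs c hc1)).2
    have hgoal : (-1 : ℝ) ^ j * ∑ i ∈ range (2 * (m + 1) + 3),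
        ((PV (m + 1) v).map (Int.castRingHom ℝ)).coeff i *
          Real.cos (((i : ℝ) - (((m + 1 : ℕ) : ℝ) + 1)) * φ) < 0 := by
      rw [hsum]
      push_cast at hv0R hlow hRb hnR ⊢
      have hmn : 0 ≤ (m : ℝ) * n := by positivity
      nlinarith
    exact hgoal

end Pool.Agent.PSA
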