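import Pool.Agent.helper75.PSA.Spec

set_option autoImplicit false

open Polynomial Finset

noncomputable section

namespace Pool.Agent.PSA

/-- extension by zero -/
def LWB_ext (k : ℕ) (g : Fin (k + 1) → ℤ) : ℕ → ℤ := fun i => if h : i < k + 1 then g ⟨i, h⟩ else 0

/-- the box -/
def LWB_box (k n : ℕ) : Finset (Fin (k + 1) → ℤ) :=
  Fintype.piFinset (fun j : Fin (k + 1) =>
    if (j : ℕ) = 0 then Finset.Icc (8 * k * n : ℤ) (12 * k * n) else Finset.Icc (3 * n : ℤ) (4 * n))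

theorem LWB_mem {k n : ℕ} {g : Fin (k + 1) → ℤ} (hg : g ∈ LWB_box k n) : Bx k n (LWB_ext k g) := by
  unfold LWB_box at hg
  rw [Fintype.mem_piFinset] at hg
  refine ⟨?_, ?_, ?_⟩
  · have h := hg 0
    rw [if_pos (by simp), Finset.mem_Icc] at h
    have e : LWB_ext k g 0 = g 0 := by simp [LWB_ext]
    rw [e]
    exact h.1
  · have h := hg 0
    rw [if_pos (by simp), Finset.mem_Icc] at h
    have e : LWB_ext k g 0 = g 0 := by simp [LWB_ext]
    rw [e]
    exact h.2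
  · intro j hj hjk
    have hlt : j < k + 1 := by omega
    have h := hg ⟨j, hlt⟩
    rw [if_neg (by simp only; omega), Finset.mem_Icc] at h
    have e : LWB_ext k g j = g ⟨j, hlt⟩ := by simp [LWB_ext, hlt]
    rw [e]
    exact h

theorem LWB_card (k n : ℕ) (hk : 1 ≤ k) : (n + 1) ^ (k + 1) ≤ (LWB_box k n).card := by
  unfold LWB_box
  rw [Fintype.card_piFinset]
  have h : ∏ _j : Fin (k + 1), (n + 1) ≤ ∏ j : Fin (k + 1),
      (if (j : ℕ) = 0 then Finset.Icc (8 * k * n : ℤ) (12 * k * n) else Finset.Icc (3 * n : ℤ) (4 * n)).card := by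
    refine Finset.prod_le_prod' fun j _ => ?_
    have hkn : (n : ℤ) ≤ k * n := by
      have : (1 : ℤ) ≤ k := by exact_mod_cast hk
      nlinarith
    by_cases hj : (j : ℕ) = 0
    · rw [if_pos hj, Int.card_Icc]
      have : ((n + 1 : ℕ) : ℤ) ≤ 12 * k * n + 1 - 8 * k * n := by
        push_cast
        nlinarith
      omega
    · rw [if_neg hj, Int.card_Icc]
      have : ((n + 1 : ℕ) : ℤ) ≤ 4 * n + 1 - 3 * n := by
        push_cast
        linarith
      omega
  rw [Finset.prod_const, Finset.card_univ, Fintype.card_fin] at h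
  exact h

theorem LWB (hLOC : LOC_stmt) (hCOE : COE_stmt) (hIRR : IRR_stmt) (hSLM : SLM_stmt) (hCRI : CRI_stmt)
    (hPVC : PVC_stmt) : LWB_stmt := by
  classical
  intro k hk
  obtain ⟨n₁, hn₁⟩ := hLOC k hk
  obtain ⟨n₂, hn₂⟩ := hCOE k hk
  obtain ⟨R, -, -, -, hR⟩ := hPVC k
  have hkR : (1 : ℝ) ≤ k := by exact_mod_cast hk
  have hk50 : (0 : ℝ) < 50 * k := by positivity
  refine ⟨(1 / (50 * k)) ^ (k + 1), 50 * k * (n₁ + n₂), by positivity, fun X hX => ?_⟩
  have hX0 : 0 ≤ X := le_trans (by positivity) hX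
  set n := ⌊X / (50 * k)⌋₊ with hn
  have hnX : (n : ℝ) ≤ X / (50 * k) := Nat.floor_le (by positivity)
  have hnX' : X / (50 * k) < n + 1 := Nat.lt_floor_add_one _
  have hn12 : n₁ + n₂ ≤ n := by
    rw [hn]
    refine Nat.le_floor ?_
    rw [le_div_iff₀ hk50]
    push_cast
    linarith
  have hnk : 50 * k * (n : ℝ) ≤ X := by
    rw [le_div_iff₀ hk50] at hnX
    linarith
  have hex : ∀ g : Fin (k + 1) → ℤ, ∃ Λ : ℝ, g ∈ LWB_box k n →
      ((Λ ∈ SS (2 * k + 2) X ∧ Short (2 * k + 2) Λ) ∧ minpoly ℤ Λ = PV k (LWB_ext k g)) := by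
    intro g
    by_cases hg : g ∈ LWB_box k n
    · obtain ⟨Λ, w, hΛ, hF⟩ := hn₁ n (by omega) (LWB_ext k g) (LWB_mem hg)
      obtain ⟨hle, hMid⟩ := hn₂ n (by omega) (LWB_ext k g) (LWB_mem hg) Λ w hΛ hF
      obtain ⟨hmon, hdeg, -, -⟩ := hR (LWB_ext k g)
      obtain ⟨hS, hmin⟩ := hSLM k _ Λ w hk hΛ hmon (hIRR k _) hF
      refine ⟨Λ, fun _ => ⟨⟨⟨hS, ?_, by linarith⟩, hCRI k _ Λ w hk hΛ hF hMid⟩, hmin⟩⟩
      rw [hmin, hdeg]
    · exact ⟨0, fun h => absurd h hg⟩
  choose Λ hΛ using hex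
  refine ⟨(LWB_box k n).image Λ, ?_, ?_⟩
  · intro β hβ
    obtain ⟨g, hg, rfl⟩ := Finset.mem_image.1 hβ
    exact (hΛ g hg).1
  · have hinj : Set.InjOn Λ (LWB_box k n : Set (Fin (k + 1) → ℤ)) := by
      intro g hg g' hg' he
      have h1 := (hΛ g hg).2
      have h2 := (hΛ g' hg').2
      rw [he, h2] at h1
      funext j
      have hj := j.2
      obtain ⟨-, -, hc, -⟩ := hR (LWB_ext k g)
      obtain ⟨-, -, hc', -⟩ := hR (LWB_ext k g')
      have e1 := hc (j + 1) (by omega) (by omega)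
      have e2 := hc' (j + 1) (by omega) (by omega)
      have e3 : min ((j : ℕ) + 1 - 1) (2 * k + 1 - ((j : ℕ) + 1)) = j := by omega
      rw [e3] at e1 e2
      rw [← h1] at e1
      have e4 : LWB_ext k g j = g j := by simp [LWB_ext, hj]
      have e5 : LWB_ext k g' j = g' j := by simp [LWB_ext, hj]
      rw [e4] at e1
      rw [e5] at e2
      omega
    rw [Finset.card_image_of_injOn hinj]
    have h1 : (((n + 1) ^ (k + 1) : ℕ) : ℝ) ≤ ((LWB_box k n).card : ℝ) := by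
      exact_mod_cast LWB_card k n hk
    refine le_trans ?_ h1
    push_cast
    rw [← mul_pow]
    refine pow_le_pow_left₀ (by positivity) ?_ _
    have : 1 / (50 * k) * X = X / (50 * k) := by ring
    rw [this]
    exact hnX'.le

end Pool.Agent.PSA
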