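import Pool.Agent.helper75.PSA.Spec

set_option autoImplicit false

open Polynomial Finset

noncomputable section

namespace Pool.Agent.PSA

open Topology in
theorem UKR_nbhd (k : ℕ) (U : Set (Fin k → Circle)) (hU : IsOpen U) (u : Fin k → Circle) (hu : u ∈ U) :
    ∃ V : Set (Fin k → Circle), IsOpen V ∧ 1 ∈ V ∧ ∀ x ∈ V, ∀ y ∈ V, u * x * y ∈ U := by
  have hc : Continuous (fun p : (Fin k → Circle) × (Fin k → Circle) => u * p.1 * p.2) := by fun_prop
  have ho : IsOpen ((fun p : (Fin k → Circle) × (Fin k → Circle) => u * p.1 * p.2) ⁻¹' U) := hU.preimage hc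
  have hm : ((1 : Fin k → Circle), (1 : Fin k → Circle)) ∈
      ((fun p : (Fin k → Circle) × (Fin k → Circle) => u * p.1 * p.2) ⁻¹' U) := by
    simpa using hu
  obtain ⟨A, B, hA, hB, h1A, h1B, hAB⟩ := isOpen_prod_iff.1 ho 1 1 hm
  refine ⟨A ∩ B, hA.inter hB, ⟨h1A, h1B⟩, fun x hx y hy => ?_⟩
  exact hAB (Set.mk_mem_prod hx.1 hy.2)

theorem UKR_cover (k : ℕ) (V : Set (Fin k → Circle)) (hV : IsOpen V) (h1 : 1 ∈ V) (u : Fin k → Circle) :
    ∃ G : Finset (Fin k → Circle), ∀ x : Fin k → Circle, ∃ g ∈ G, u⁻¹ * g⁻¹ * x ∈ V := by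
  have hop : ∀ g : Fin k → Circle, IsOpen {x : Fin k → Circle | u⁻¹ * g⁻¹ * x ∈ V} := fun g =>
    hV.preimage (by fun_prop)
  have hcov : (Set.univ : Set (Fin k → Circle)) ⊆ ⋃ g : Fin k → Circle, {x | u⁻¹ * g⁻¹ * x ∈ V} := by
    intro x _
    refine Set.mem_iUnion.2 ⟨x * u⁻¹, ?_⟩
    have : u⁻¹ * (x * u⁻¹)⁻¹ * x = 1 := by
      rw [mul_inv_rev, inv_inv, ← mul_assoc, inv_mul_cancel, one_mul, inv_mul_cancel]
    change u⁻¹ * (x * u⁻¹)⁻¹ * x ∈ V
    rw [this]
    exact h1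
  obtain ⟨G, hG⟩ := isCompact_univ.elim_finite_subcover _ hop hcov
  refine ⟨G, fun x => ?_⟩
  have := hG (Set.mem_univ x)
  simp only [Set.mem_iUnion] at this
  obtain ⟨g, hg, hx⟩ := this
  exact ⟨g, hg, hx⟩

theorem UKR (hKRO : KRO_stmt) : UKR_stmt := by
  classical
  intro k U hU hne
  obtain ⟨u, hu⟩ := hne
  obtain ⟨V, hV, h1, hVU⟩ := UKR_nbhd k U hU u hu
  obtain ⟨G, hG⟩ := UKR_cover k V hV h1 u
  have hGne : G.Nonempty := by
    obtain ⟨g, hg, _⟩ := hG 1
    exact ⟨g, hg⟩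
  have hM : 0 < G.card := Finset.card_pos.2 hGne
  have hMR : (0 : ℝ) < G.card := by exact_mod_cast hM
  refine ⟨1 / (2 * G.card), by positivity, fun w hw => ?_⟩
  have hn : ∀ g : Fin k → Circle, ∃ n : ℕ, g * (w ^ n)⁻¹ ∈ V := by
    intro g
    have ho : IsOpen {y : Fin k → Circle | g * y⁻¹ ∈ V} := hV.preimage (by fun_prop)
    obtain ⟨N, hN⟩ := hKRO k w hw _ ho ⟨g, by
      change g * g⁻¹ ∈ V
      rwa [mul_inv_cancel]⟩
    exact ⟨N, hN⟩
  choose ν hν using hn
  set n := G.sup ν with hndef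
  refine ⟨2 * n, fun X hX s => ?_⟩
  choose γ hγG hγ using hG
  set S := (Finset.Ico s (s + X)).filter (fun N => (fun j => w j ^ N) ∈ U) with hS
  set D := Finset.Ico (s + n) (s + X) with hD
  set f : ℕ → ℕ := fun N => N - ν (γ (w ^ N)) with hf
  have hνn : ∀ N, ν (γ (w ^ N)) ≤ n := fun N => Finset.le_sup (hγG _)
  have himg : D.image f ⊆ S := by
    intro y hy
    obtain ⟨N, hN, rfl⟩ := Finset.mem_image.1 hy
    rw [hD, Finset.mem_Ico] at hN
    have h2 := hνn N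
    rw [hS, Finset.mem_filter, Finset.mem_Ico]
    refine ⟨⟨by simp only [hf]; omega, by simp only [hf]; omega⟩, ?_⟩
    have h3 := hVU _ (hν (γ (w ^ N))) _ (hγ (w ^ N))
    have h4 : u * (γ (w ^ N) * (w ^ ν (γ (w ^ N)))⁻¹) * (u⁻¹ * (γ (w ^ N))⁻¹ * w ^ N) = w ^ f N := by
      have h5 : w ^ N = w ^ f N * w ^ ν (γ (w ^ N)) := by
        rw [← pow_add]
        congr 1
        simp only [hf]
        omega
      have h6 : u * (γ (w ^ N) * (w ^ ν (γ (w ^ N)))⁻¹) * (u⁻¹ * (γ (w ^ N))⁻¹ * w ^ N) =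
          w ^ N * (w ^ ν (γ (w ^ N)))⁻¹ := by
        have e : ∀ a g b c : Fin k → Circle, a * (g * b) * (a⁻¹ * g⁻¹ * c) = c * b := by
          intro a g b c
          calc a * (g * b) * (a⁻¹ * g⁻¹ * c) = (a * a⁻¹) * (g * g⁻¹) * (c * b) := by
                simp only [mul_comm, mul_left_comm, mul_assoc]
            _ = c * b := by rw [mul_inv_cancel, mul_inv_cancel, one_mul, one_mul]
        exact e _ _ _ _
      rw [h6]
      calc w ^ N * (w ^ ν (γ (w ^ N)))⁻¹ = (w ^ f N * w ^ ν (γ (w ^ N))) * (w ^ ν (γ (w ^ N)))⁻¹ := by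
            rw [← h5]
        _ = w ^ f N := mul_inv_cancel_right _ _
    rw [h4] at h3
    exact h3
  have hfib : ∀ a ∈ D.image f, (D.filter (fun x => f x = a)).card ≤ G.card := by
    intro a _
    have hsub : D.filter (fun x => f x = a) ⊆ G.image (fun g => a + ν g) := by
      intro N hN
      rw [Finset.mem_filter, hD, Finset.mem_Ico] at hN
      refine Finset.mem_image.2 ⟨γ (w ^ N), hγG _, ?_⟩
      have h2 := hνn N
      have h3 := hN.2
      simp only [hf] at h3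
      omega
    exact (Finset.card_le_card hsub).trans Finset.card_image_le
  have hcard : D.card ≤ G.card * S.card :=
    (Finset.card_le_mul_card_image D G.card hfib).trans
      (Nat.mul_le_mul_left _ (Finset.card_le_card himg))
  rw [hD, Nat.card_Ico] at hcard
  have h7 : X ≤ G.card * S.card + n := by omega
  have h8 : (X : ℝ) ≤ G.card * S.card + n := by exact_mod_cast h7
  have h9 : (2 * n : ℝ) ≤ X := by exact_mod_cast hX
  rw [div_mul_eq_mul_div, one_mul, div_le_iff₀ (by positivity)]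
  nlinarith

end Pool.Agent.PSA
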